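import Pool.Agent.H38.GP.Pres

/-!
Linear maps preserving a class of operators with closed range.
-/

set_option autoImplicit false
set_option linter.unusedSectionVars false

namespace H38.GP

open Pool.Agent.Helper280.GI

section

variable {H : Type*} [NormedAddCommGroup H] [InnerProductSpace ℂ H] [CompleteSpace H]

/-- The classes of operators under consideration. -/
structure Adm (S : Set (H →L[ℂ] H)) : Prop where
  pert : ∀ A B, FR (A - B) → A ∈ S → B ∈ S
  rg : ∀ T ∈ S, RG T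
  inv : ∀ T, LI T → RI T → T ∈ S
  idem : ∀ T, FR (T * T - T) → T ∈ S
  left : (∀ T, LI T → T ∈ S) ∨ (∀ T ∈ S, LI T → RI T)
  right : (∀ T, RI T → T ∈ S) ∨ (∀ T ∈ S, RI T → LI T)

/-- the algebraic interior of `S` -/
def Core (S : Set (H →L[ℂ] H)) (T : H →L[ℂ] H) : Prop :=
  ∀ Y : H →L[ℂ] H, ∃ δ : ℝ, 0 < δ ∧ ∀ t : ℂ, ‖t‖ < δ → T + t • Y ∈ S

variable {S : Set (H →L[ℂ] H)}

lemma Core.mem {T : H →L[ℂ] H} (h : Core S T) : T ∈ S := by
  obtain ⟨δ, hδ, h1⟩ := h 0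
  have := h1 0 (by simpa using hδ)
  simpa using this

lemma core_of_li (h : ∀ T, LI T → T ∈ S) {T : H →L[ℂ] H} (hT : LI T) : Core S T := by
  intro Y
  obtain ⟨δ, h1, h2⟩ := li_small hT Y
  exact ⟨δ, h1, fun t ht => h _ (h2 t ht)⟩

lemma core_of_ri (h : ∀ T, RI T → T ∈ S) {T : H →L[ℂ] H} (hT : RI T) : Core S T := by
  intro Y
  obtain ⟨δ, h1, h2⟩ := ri_small hT Y
  exact ⟨δ, h1, fun t ht => h _ (h2 t ht)⟩

lemma Adm.core_of_inv (hS : Adm S) {T : H →L[ℂ] H} (h1 : LI T) (h2 : RI T) : Core S T := by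
  intro Y
  obtain ⟨δ, a1, a2⟩ := li_small h1 Y
  obtain ⟨δ', b1, b2⟩ := ri_small h2 Y
  exact ⟨min δ δ', lt_min a1 b1, fun t ht =>
    hS.inv _ (a2 t (ht.trans_le (min_le_left _ _))) (b2 t (ht.trans_le (min_le_right _ _)))⟩

variable [TopologicalSpace.SeparableSpace H]

lemma Adm.sf_of_core (hS : Adm S) (hinf : ¬ FiniteDimensional ℂ H) {T : H →L[ℂ] H}
    (h : Core S T) : LI T ∨ RI T := by
  rw [sf_iff hinf]
  intro Y
  obtain ⟨δ, h1, h2⟩ := h Y
  exact ⟨δ, h1, fun t ht => hS.rg _ (h2 t ht)⟩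

/-- Among the operators, those invertible modulo finite rank are characterised by the class `S` and
the linear structure. -/
lemma Adm.inv_char (hS : Adm S) (hinf : ¬ FiniteDimensional ℂ H) (T : H →L[ℂ] H) :
    (LI T ∧ RI T) ↔ Core S T ∧ ∀ Y : H →L[ℂ] H, ∃ t : ℂ, ¬ Core S (Y - t • T) := by
  constructor
  · rintro ⟨hl, hr⟩
    refine ⟨hS.core_of_inv hl hr, fun Y => ?_⟩
    obtain ⟨t, ht⟩ := ((Pool.Agent.Helper280.GI.inv_char hinf T).1 ⟨hl, hr⟩).2 Y
    exact ⟨t, fun h => ht (hS.sf_of_core hinf h)⟩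
  · rintro ⟨h1, h2⟩
    by_contra hcon
    rcases hS.sf_of_core hinf h1 with h3 | h3
    · have h4 : ¬ RI T := fun h => hcon ⟨h3, h⟩
      have h5 : ∀ T, LI T → T ∈ S := by
        rcases hS.left with h | h
        · exact h
        · exact absurd (h T h1.mem h3) h4
      obtain ⟨y, hy⟩ := alg3 hE (qm H T) (li_iff.1 h3) (fun h => h4 (ri_iff.2 h))
      obtain ⟨Y, rfl⟩ := qm_surjective H y
      obtain ⟨t, ht⟩ := h2 Y
      apply ht
      apply core_of_li h5
      rw [li_iff, map_sub, map_smul]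
      exact hy t
    · have h4 : ¬ LI T := fun h => hcon ⟨h, h3⟩
      have h5 : ∀ T, RI T → T ∈ S := by
        rcases hS.right with h | h
        · exact h
        · exact absurd (h T h1.mem h3) h4
      obtain ⟨y, hy⟩ := alg4 hE (qm H T) (ri_iff.1 h3) (fun h => h4 (li_iff.2 h))
      obtain ⟨Y, rfl⟩ := qm_surjective H y
      obtain ⟨t, ht⟩ := h2 Y
      apply ht
      apply core_of_ri h5
      rw [ri_iff, map_sub, map_smul]
      exact hy t

/-- a linear map which maps the members of `S`, and no other operators, to members of `S'`, and is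
surjective up to finite rank -/
structure Preserver (S S' : Set (H →L[ℂ] H)) (φ : (H →L[ℂ] H) →ₗ[ℂ] (H →L[ℂ] H)) : Prop where
  mem : ∀ T, T ∈ S ↔ φ T ∈ S'
  surj : ∀ A, ∃ B, FR (A - φ B)

variable {S' : Set (H →L[ℂ] H)} {φ : (H →L[ℂ] H) →ₗ[ℂ] (H →L[ℂ] H)}

omit [TopologicalSpace.SeparableSpace H] in
lemma Preserver.core (hφ : Preserver S S' φ) (hS' : Adm S') (T : H →L[ℂ] H) :
    Core S T ↔ Core S' (φ T) := by
  constructor
  · intro h Y'
    obtain ⟨Y, hY⟩ := hφ.surj Y'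
    obtain ⟨δ, hδ, h1⟩ := h Y
    refine ⟨δ, hδ, fun t ht => ?_⟩
    have h2 := (hφ.mem _).1 (h1 t ht)
    rw [map_add, map_smul] at h2
    have h3 : FR ((φ T + t • φ Y) - (φ T + t • Y')) := by
      rw [add_sub_add_left_eq_sub, ← smul_sub]
      exact (FR.sub_comm hY).smul t
    exact hS'.pert _ _ h3 h2
  · intro h Y
    obtain ⟨δ, hδ, h1⟩ := h (φ Y)
    refine ⟨δ, hδ, fun t ht => ?_⟩
    rw [hφ.mem, map_add, map_smul]
    exact h1 t ht

lemma Preserver.inv (hφ : Preserver S S' φ) (hS : Adm S) (hS' : Adm S')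
    (hinf : ¬ FiniteDimensional ℂ H) (T : H →L[ℂ] H) :
    (LI T ∧ RI T) ↔ (LI (φ T) ∧ RI (φ T)) := by
  rw [hS.inv_char hinf, hS'.inv_char hinf]
  refine and_congr (hφ.core hS' T) ?_
  constructor
  · intro h Y'
    obtain ⟨Y, hY⟩ := hφ.surj Y'
    obtain ⟨t, ht⟩ := h Y
    refine ⟨t, fun hcon => ht ?_⟩
    rw [hφ.core hS', map_sub, map_smul]
    intro Z
    obtain ⟨δ, hδ, h1⟩ := hcon Z
    refine ⟨δ, hδ, fun s hs => hS'.pert _ _ ?_ (h1 s hs)⟩
    have e : (Y' - t • φ T + s • Z) - (φ Y - t • φ T + s • Z) = Y' - φ Y := by abel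
    rw [e]
    exact hY
  · intro h Y
    obtain ⟨t, ht⟩ := h (φ Y)
    refine ⟨t, fun hcon => ht ?_⟩
    rw [hφ.core hS', map_sub, map_smul] at hcon
    exact hcon

lemma Preserver.compact (hφ : Preserver S S' φ) (hS : Adm S) (hS' : Adm S')
    (hinf : ¬ FiniteDimensional ℂ H) (T : H →L[ℂ] H) :
    IsCompactOperator T ↔ IsCompactOperator (φ T) := by
  rw [compact_char, compact_char]
  constructor
  · intro hT X' hX'
    obtain ⟨X, hX⟩ := hφ.surj X'
    have h1 : LI (φ X) ∧ RI (φ X) := ⟨(li_congr hX).1 hX'.1, (ri_congr hX).1 hX'.2⟩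
    have h2 := hT X ((hφ.inv hS hS' hinf X).2 h1)
    have h3 := (hφ.inv hS hS' hinf _).1 h2
    rw [map_add] at h3
    have h4 : FR ((X' + φ T) - (φ X + φ T)) := by simpa using hX
    exact ⟨(li_congr h4).2 h3.1, (ri_congr h4).2 h3.2⟩
  · intro hT X hX
    rw [hφ.inv hS hS' hinf, map_add]
    exact hT _ ((hφ.inv hS hS' hinf X).1 hX)

omit [TopologicalSpace.SeparableSpace H] in
lemma Adm.mem_of_fr (hS : Adm S) {T : H →L[ℂ] H} (hT : FR T) : T ∈ S := by
  apply hS.idem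
  exact (hT.mul_left T).sub hT

lemma Preserver.fin (hφ : Preserver S S' φ) (hS : Adm S) (hS' : Adm S')
    (hinf : ¬ FiniteDimensional ℂ H) (T : H →L[ℂ] H) : FR T ↔ FR (φ T) := by
  constructor
  · intro hT
    exact compact_rg gi' ((hφ.compact hS hS' hinf T).1 hT.compact)
      (hS'.rg _ ((hφ.mem T).1 (hS.mem_of_fr hT)))
  · intro hT
    exact compact_rg gi' ((hφ.compact hS hS' hinf T).2 hT.compact)
      (hS.rg _ ((hφ.mem T).2 (hS'.mem_of_fr hT)))

end

end H38.GP
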