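import Pool.Agent.H38.GP.Class
import Pool.Graph.R_seed8.Helper280.GI.Inner
import Pool.Graph.R_seed8.Helper280.GI.JTranspose
import Pool.Graph.R_seed8.Helper280.GI.JFredholm

/-!
The form of the linear preservers of a class of operators. The final assembly is adapted from
`Pool/Graph/R_seed8/Results/MP_86f994_an/GenInvPreservers.lean`.
-/

set_option autoImplicit false
set_option linter.unusedSectionVars false

namespace H38.GP

open Pool.Agent.Helper280.GI

section

variable {H : Type*} [NormedAddCommGroup H] [InnerProductSpace ℂ H] [CompleteSpace H]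
  [TopologicalSpace.SeparableSpace H]

/-- The form of the preservers, up to the definitions of the result file. -/
theorem Preserver.form {S S' : Set (H →L[ℂ] H)} {φ : (H →L[ℂ] H) →ₗ[ℂ] (H →L[ℂ] H)}
    (hφ : Preserver S S' φ) (hS : Adm S) (hS' : Adm S') (hH : ¬ FiniteDimensional ℂ H)
    (e : HilbertBasis ℕ ℂ H) :
    ∃ A B : H →L[ℂ] H,
      (IsClosed (Set.range A) ∧ FiniteDimensional ℂ (LinearMap.ker (A : H →ₗ[ℂ] H)) ∧
        FiniteDimensional ℂ (H ⧸ LinearMap.range (A : H →ₗ[ℂ] H))) ∧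
      (IsClosed (Set.range B) ∧ FiniteDimensional ℂ (LinearMap.ker (B : H →ₗ[ℂ] H)) ∧
        FiniteDimensional ℂ (H ⧸ LinearMap.range (B : H →ₗ[ℂ] H))) ∧
      ∃ χ : (H →L[ℂ] H) →ₗ[ℂ] (H →L[ℂ] H), (∀ T, FR (χ T)) ∧
        ((∀ T, φ T = A * T * B + χ T) ∨
          (∀ T, ∃ T' : H →L[ℂ] H, (∀ i j, inner ℂ (e j) (T' (e i)) = inner ℂ (e i) (T (e j))) ∧
            φ T = A * T' * B + χ T)) := by
  have hfr := hφ.fin hS hS' hH
  have hinv := hφ.inv hS hS' hH
  have hsurj' := hφ.surj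
  -- normalisation
  have h1inv : LI (1 : H →L[ℂ] H) ∧ RI (1 : H →L[ℂ] H) :=
    ⟨⟨1, by rw [mul_one, sub_self]; exact FR.zero⟩, ⟨1, by rw [mul_one, sub_self]; exact FR.zero⟩⟩
  obtain ⟨u, hu⟩ := inv_iff_unit.1 ((hinv 1).1 h1inv)
  obtain ⟨A', hA'⟩ := qm_surjective H ((u⁻¹ : (QH H)ˣ) : QH H)
  have hA1 : FR (A' * φ 1 - 1) := by
    rw [← qm_eq, map_mul, hA', ← hu, Units.inv_mul, map_one]
  have hA2 : FR (φ 1 * A' - 1) := by
    rw [← qm_eq, map_mul, hA', ← hu, Units.mul_inv, map_one]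
  let θ : (H →L[ℂ] H) →ₗ[ℂ] (H →L[ℂ] H) := (LinearMap.mulLeft ℂ A') ∘ₗ φ
  have hθ : ∀ T, θ T = A' * φ T := fun T => rfl
  have hφθ : ∀ T, FR (φ T - φ 1 * θ T) := by
    intro T
    rw [hθ, ← mul_assoc]
    have e1 : φ T - φ 1 * A' * φ T = -((φ 1 * A' - 1) * φ T) := by noncomm_ring
    rw [e1]
    exact (hA2.mul_right _).neg
  have hqθ : ∀ T, qm H (θ T) = ((u⁻¹ : (QH H)ˣ) : QH H) * qm H (φ T) := by
    intro T; rw [hθ, map_mul, hA']
  have hPres : WPres θ := by
    refine ⟨hA1, fun T => ?_, fun T => ?_, fun X => ?_, fun T hT => ?_⟩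
    · rw [hinv T, inv_iff_unit, inv_iff_unit, hqθ]
      exact (Units.isUnit_units_mul u⁻¹ _).symm
    · rw [hfr T]
      constructor
      · intro h; rw [hθ]; exact h.mul_left _
      · intro h
        exact FR.of_sub (hφθ T) (h.mul_left _)
    · obtain ⟨B, hB⟩ := hsurj' (φ 1 * X)
      refine ⟨B, ?_⟩
      have e1 : X - θ B = A' * (φ 1 * X - φ B) - (A' * φ 1 - 1) * X := by
        rw [hθ]; noncomm_ring
      rw [e1]
      exact (hB.mul_left _).sub (hA1.mul_right _)
    · obtain ⟨s, hs⟩ := rg_iff.1 (hS'.rg _ ((hφ.mem T).1 (hS.idem T hT)))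
      refine rg_iff.2 ⟨s * u, ?_⟩
      rw [hqθ]
      calc ((u⁻¹ : (QH H)ˣ) : QH H) * qm H (φ T) * (s * u) * (((u⁻¹ : (QH H)ˣ) : QH H) * qm H (φ T))
          = ((u⁻¹ : (QH H)ˣ) : QH H) * (qm H (φ T) * s * ((u : QH H) * ((u⁻¹ : (QH H)ˣ) : QH H))
              * qm H (φ T)) := by simp only [mul_assoc]
        _ = _ := by rw [Units.mul_inv, mul_one, hs]
  -- final assembly from an inner near automorphism
  have hfin : ∀ (σ : (H →L[ℂ] H) →ₗ[ℂ] (H →L[ℂ] H)) (G G' : H →L[ℂ] H), FR (G' * G - 1) →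
      FR (G * G' - 1) → (∀ T, FR (θ T - G * σ T * G')) →
      (IsClosed (Set.range (φ 1 * G)) ∧
        FiniteDimensional ℂ (LinearMap.ker ((φ 1 * G : H →L[ℂ] H) : H →ₗ[ℂ] H)) ∧
        FiniteDimensional ℂ (H ⧸ LinearMap.range ((φ 1 * G : H →L[ℂ] H) : H →ₗ[ℂ] H))) ∧
      (IsClosed (Set.range G') ∧ FiniteDimensional ℂ (LinearMap.ker (G' : H →ₗ[ℂ] H)) ∧
        FiniteDimensional ℂ (H ⧸ LinearMap.range (G' : H →ₗ[ℂ] H))) ∧
      ∀ T, FR (φ T - (φ 1 * G) * σ T * G') := by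
    intro σ G G' hG hG' hT
    refine ⟨?_, ?_, fun T => ?_⟩
    · refine fredholm_of (A' := G' * A') ?_ ?_
      · have e1 : G' * A' * (φ 1 * G) - 1 = G' * (A' * φ 1 - 1) * G + (G' * G - 1) := by
          noncomm_ring
        rw [e1]
        exact ((hA1.mul_left _).mul_right _).add hG
      · have e1 : φ 1 * G * (G' * A') - 1 = φ 1 * (G * G' - 1) * A' + (φ 1 * A' - 1) := by
          noncomm_ring
        rw [e1]
        exact ((hG'.mul_left _).mul_right _).add hA2
    · exact fredholm_of hG' hG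
    · have e1 : φ T - (φ 1 * G) * σ T * G' = (φ T - φ 1 * θ T) + φ 1 * (θ T - G * σ T * G') := by
        noncomm_ring
      rw [e1]
      exact (hφθ T).add ((hT T).mul_left _)
  rcases hPres.hom_or_anti hH with hhom | hanti
  · have hN : NearAut (fun T => θ T) := by
      refine ⟨fun x y => ?_, fun c x => ?_, hhom, hPres.one, hPres.fin, hPres.surj⟩
      · rw [map_add, sub_self]; exact FR.zero
      · rw [map_smul, sub_self]; exact FR.zero
    obtain ⟨G, G', hG, hG', hT⟩ := nearAut_inner hH hN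
    obtain ⟨h1, h2, h3⟩ := hfin LinearMap.id G G' hG hG' hT
    refine ⟨φ 1 * G, G', h1, h2, φ - (LinearMap.mulRight ℂ G') ∘ₗ (LinearMap.mulLeft ℂ (φ 1 * G)),
      fun T => h3 T, Or.inl fun T => ?_⟩
    change φ T = φ 1 * G * T * G' + (φ T - φ 1 * G * T * G')
    abel
  · obtain ⟨tr, ht1, ht2, ht3, ht4, ht5⟩ := exists_transpose e
    have hN : NearAut (fun T => θ (tr T)) := by
      refine ⟨fun x y => ?_, fun c x => ?_, fun x y => ?_, ?_, fun x => ?_, fun y => ?_⟩
      · rw [map_add, map_add, sub_self]; exact FR.zero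
      · rw [map_smul, map_smul, sub_self]; exact FR.zero
      · have := hanti (tr y) (tr x)
        rwa [← ht2] at this
      · change FR (θ (tr 1) - 1)
        rw [ht4]; exact hPres.one
      · change FR x ↔ FR (θ (tr x))
        rw [← hPres.fin]
        constructor
        · exact ht5 x
        · intro h
          have := ht5 _ h
          rwa [ht3] at this
      · obtain ⟨x, hx⟩ := hPres.surj y
        exact ⟨tr x, by change FR (y - θ (tr (tr x))); rwa [ht3]⟩
    obtain ⟨G, G', hG, hG', hT⟩ := nearAut_inner hH hN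
    have hT' : ∀ T, FR (θ T - G * tr T * G') := by
      intro T
      have := hT (tr T)
      change FR (θ (tr (tr T)) - G * tr T * G') at this
      rwa [ht3] at this
    obtain ⟨h1, h2, h3⟩ := hfin tr G G' hG hG' hT'
    refine ⟨φ 1 * G, G', h1, h2,
      φ - (LinearMap.mulRight ℂ G') ∘ₗ (LinearMap.mulLeft ℂ (φ 1 * G)) ∘ₗ tr,
      fun T => h3 T, Or.inr fun T => ⟨tr T, fun i j => ht1 T i j, ?_⟩⟩
    change φ T = φ 1 * G * tr T * G' + (φ T - φ 1 * G * tr T * G')
    abel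

end

end H38.GP
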