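import Pool.Graph.R_seed8.Helper280.GI.PA2

/-!
Normalised preservers: a linear map of `B(H)` which preserves invertibility modulo finite rank, maps
finite rank operators to finite rank operators in both directions, is surjective up to finite rank
and maps operators that are idempotent modulo finite rank to operators with closed range is an
automorphism or an anti-automorphism modulo finite rank. Adapted from
`Pool/Graph/R_seed8/Helper280/GI/PA2.lean`, where all operators with closed range are assumed to be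
mapped to operators with closed range.
-/

set_option autoImplicit false

namespace H38.GP

open Pool.Agent.Helper280.GI

section

variable {H : Type*} [NormedAddCommGroup H] [InnerProductSpace ℂ H] [CompleteSpace H]

/-- The properties of a normalised preserver of a class which contains the operators that are
invertible or idempotent modulo finite rank. -/
structure WPres (θ : (H →L[ℂ] H) →ₗ[ℂ] (H →L[ℂ] H)) : Prop where
  one : FR (θ 1 - 1)
  inv : ∀ T, (LI T ∧ RI T) ↔ (LI (θ T) ∧ RI (θ T))
  fin : ∀ T, FR T ↔ FR (θ T)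
  surj : ∀ A, ∃ B, FR (A - θ B)
  rg : ∀ T, FR (T * T - T) → RG (θ T)

variable {θ : (H →L[ℂ] H) →ₗ[ℂ] (H →L[ℂ] H)}

lemma WPres.compact (hθ : WPres θ) {T : H →L[ℂ] H} (hT : IsCompactOperator T) :
    IsCompactOperator (θ T) := by
  rw [compact_char] at hT ⊢
  intro X' hX'
  obtain ⟨X, hX⟩ := hθ.surj X'
  have h1 : LI (θ X) ∧ RI (θ X) := ⟨(li_congr hX).1 hX'.1, (ri_congr hX).1 hX'.2⟩
  have h2 := hT X ((hθ.inv X).2 h1)
  have h3 := (hθ.inv _).1 h2
  rw [map_add] at h3
  have h4 : FR ((X' + θ T) - (θ X + θ T)) := by simpa using hX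
  exact ⟨(li_congr h4).2 h3.1, (ri_congr h4).2 h3.2⟩

lemma WPres.jordan_compact (hθ : WPres θ) (T : H →L[ℂ] H) :
    IsCompactOperator (θ (T * T) - θ T * θ T : H →L[ℂ] H) := by
  obtain ⟨g, hg⟩ := exists_descend ((cmkA (H := H)).toLinearMap) cmk_surjective
    ((cmkA (H := H)).toLinearMap ∘ₗ θ) (fun v hv => by
      have h1 : IsCompactOperator v := (cmk_eq_zero v).1 hv
      exact (cmk_eq_zero _).2 (hθ.compact h1))
  have hg' : ∀ T, g (cmkA T) = cmkA (θ T) := hg
  have hFR : ∀ {S T : H →L[ℂ] H}, FR (S - T) → (cmkA S : Calk H) = cmkA T := by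
    intro S T h
    rw [← sub_eq_zero, ← map_sub]
    exact (cmk_eq_zero _).2 h.compact
  have h1 : g 1 = 1 := by
    have := hg' 1
    rw [hFR hθ.one, map_one (cmkA (H := H))] at this
    exact this
  have hs : Function.Surjective g := by
    intro c
    obtain ⟨A, rfl⟩ := cmk_surjective c
    obtain ⟨B, hB⟩ := hθ.surj A
    exact ⟨cmkA B, by rw [hg', ← hFR hB]; rfl⟩
  have hspec : ∀ c : Calk H, spectrum ℂ (g c) = spectrum ℂ c := by
    intro c
    obtain ⟨T, rfl⟩ := cmk_surjective c
    ext l
    rw [spectrum.mem_iff, spectrum.mem_iff, not_iff_not]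
    have e1 : algebraMap ℂ (Calk H) l - cmk T = cmkA (l • 1 - T) := by
      rw [map_sub, map_smul, map_one, Algebra.algebraMap_eq_smul_one]; rfl
    have e2 : algebraMap ℂ (Calk H) l - g (cmk T) = cmkA (θ (l • 1 - T)) := by
      have h3 : g (cmk T) = cmkA (θ T) := hg' T
      rw [h3, map_sub, map_smul, map_sub, map_smul, hFR hθ.one, map_one,
        Algebra.algebraMap_eq_smul_one]
    rw [e1, e2, unit_calk_iff, unit_calk_iff]
    exact (hθ.inv _).symm
  have hrad : ∀ c : Calk H, spectralRadius ℂ (g c) = spectralRadius ℂ c := by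
    intro c
    unfold spectralRadius
    rw [hspec c]
  have hJ := (Pool.Agent.Helper280.SI.main g hs h1 hrad).2 (cmkA T)
  rw [← cmk_eq_zero]
  change (cmkA (θ (T * T) - θ T * θ T : H →L[ℂ] H) : Calk H) = 0
  have e3 : (cmkA (θ (T * T)) : Calk H) = g (cmkA (T * T)) := (hg' _).symm
  have e4 : (cmkA (θ T * θ T : H →L[ℂ] H) : Calk H) = cmkA (θ T) * cmkA (θ T) :=
    map_mul (cmkA (H := H)) _ _
  rw [map_sub, e3, map_mul (cmkA (H := H)) T T, hJ, hg', e4, sub_self]

/-- A normalised preserver is an automorphism or an anti-automorphism modulo finite rank. -/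
theorem WPres.hom_or_anti [TopologicalSpace.SeparableSpace H] (hinf : ¬ FiniteDimensional ℂ H)
    (hθ : WPres θ) :
    (∀ S T, FR (θ (S * T) - θ S * θ T)) ∨ (∀ S T, FR (θ (S * T) - θ T * θ S)) := by
  obtain ⟨g, hg⟩ := exists_descend ((qm H).toLinearMap) (qm_surjective H)
    ((qm H).toLinearMap ∘ₗ θ) (fun v hv => by
      have h1 : FR v := qm_eq_zero.1 hv
      exact qm_eq_zero.2 ((hθ.fin v).1 h1))
  have hg' : ∀ T, g (qm H T) = qm H (θ T) := hg
  have h1 : g 1 = 1 := by
    have := hg' 1
    rw [qm_eq.2 hθ.one, map_one (qm H)] at this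
    exact this
  have hs : Function.Surjective g := by
    intro c
    obtain ⟨A, rfl⟩ := qm_surjective H c
    obtain ⟨B, hB⟩ := hθ.surj A
    exact ⟨qm H B, by rw [hg', ← qm_eq.2 hB]⟩
  have hid : ∀ e : QH H, e * e = e → g e * g e = g e := by
    intro e he
    obtain ⟨T, rfl⟩ := qm_surjective H e
    have hTT : FR (T * T - T) := by
      rw [← map_mul] at he
      exact qm_eq.1 he
    have hT2 : FR ((1 - T) * (1 - T) - (1 - T)) := by
      have : (1 - T) * (1 - T) - (1 - T) = T * T - T := by noncomm_ring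
      rw [this]; exact hTT
    have h2 := rg_iff.1 (hθ.rg T hTT)
    have h3 := rg_iff.1 (hθ.rg _ hT2)
    rw [← hg'] at h2 h3
    rw [map_sub, map_sub, map_one, h1] at h3
    obtain ⟨s, hs⟩ := h2
    obtain ⟨u, hu⟩ := h3
    have hc : IsCompactOperator (θ T - θ T * θ T : H →L[ℂ] H) := by
      have h4 := hθ.jordan_compact T
      have h5 : IsCompactOperator (θ T - θ (T * T) : H →L[ℂ] H) := by
        have h6 : FR (T - T * T) := FR.sub_comm hTT
        have h7 := (hθ.fin _).1 h6
        rw [map_sub] at h7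
        exact h7.compact
      have h8 := h5.add h4
      have e1 : (θ T - θ T * θ T : H →L[ℂ] H) = (θ T - θ (T * T)) + (θ (T * T) - θ T * θ T) := by
        abel
      rw [e1]
      exact h8
    have hk : IsUnit (1 - (s + u) * (g (qm H T) - g (qm H T) * g (qm H T))) := by
      obtain ⟨Z, hZ⟩ := qm_surjective H (s + u)
      have h9 : IsCompactOperator (-(Z * (θ T - θ T * θ T)) : H →L[ℂ] H) := by
        have := (hc.clm_comp Z).neg
        exact this
      have h10 := inv_iff_unit.1 (compact_fredholm h9)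
      rw [map_add, map_neg, map_mul, map_sub, map_mul, map_one, hZ, ← hg', ← sub_eq_add_neg] at h10
      exact h10
    exact idem_of_regular _ s u hs hu hk
  obtain ⟨v, v', hv, hv1⟩ := leavitt (H := H) hinf
  have hspan : Submodule.span ℂ {e : QH H | e * e = e} = ⊤ := by
    rw [eq_top_iff]
    rintro q -
    obtain ⟨T, rfl⟩ := qm_surjective H q
    have h2 : T ∈ Submodule.span ℂ {e : H →L[ℂ] H | e * e = e} := by
      rw [span_idem hinf]; trivial
    have h3 : (Submodule.span ℂ {e : H →L[ℂ] H | e * e = e}).map (qm H).toLinearMap ≤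
        Submodule.span ℂ {e : QH H | e * e = e} := by
      rw [Submodule.map_span]
      refine Submodule.span_mono ?_
      rintro _ ⟨e, he, rfl⟩
      have he' : e * e = e := he
      change qm H e * qm H e = qm H e
      rw [← map_mul, he']
    exact h3 ⟨T, h2, rfl⟩
  have hJ : ∀ x, g (x * x) = g x * g x := by
    refine idem_to_jordan (qm H (v 0)) (qm H (v 1)) (qm H (v' 0)) (qm H (v' 1)) ?_ ?_ ?_ ?_ ?_
      hspan g h1 hid
    · rw [← map_mul, hv 0 0, if_pos rfl, map_one]
    · rw [← map_mul, hv 1 1, if_pos rfl, map_one]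
    · rw [← map_mul, hv 0 1, if_neg (by decide), map_zero]
    · rw [← map_mul, hv 1 0, if_neg (by decide), map_zero]
    · rw [← map_mul, ← map_mul, ← map_add, hv1, map_one]
  rcases herstein (fun a b h => qh_prime a b h) g hs hJ with h | h
  · left
    intro S T
    rw [← qm_eq, ← hg', map_mul, h, map_mul, hg', hg']
  · right
    intro S T
    rw [← qm_eq, ← hg', map_mul, h, map_mul, hg', hg']

end

end H38.GP
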