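import Pool.Agent.H38.GP.Main

/-!
A bijective linear map on `B(H)` which preserves the left invertible, the right invertible (modulo
`F(H)`) and the finite rank operators in both directions and is not of standard form.
-/

set_option autoImplicit false
set_option linter.unusedSectionVars false

namespace H38.GP

open Pool.Agent.Helper280.GI

/-- The algebra behind the exclusion of the anti-multiplicative form. -/
lemma comm_of_anti {C : Type*} [Ring C] (a b : C) (hab : a * b = 1)
    (h : ∀ x y, a * (y * x) * b = a * (x * (b * a) * y) * b) : ∀ x y : C, x * y = y * x := by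
  have h1 : ∀ x y, a * (y * (b * a - 1) * x) * b = 0 := by
    intro x y
    have e1 := h (b * a * x) y
    have e2 := h x y
    have e3 : a * (b * a * x * (b * a) * y) * b = (a * b) * (a * (x * (b * a) * y) * b) := by
      simp only [mul_assoc]
    rw [e3, hab, one_mul, ← e2] at e1
    have e4 : a * (y * (b * a - 1) * x) * b = a * (y * (b * a * x)) * b - a * (y * x) * b := by
      noncomm_ring
    rw [e4, e1, sub_self]
  have hba : b * a = 1 := by
    have h2 := h1 a b
    have e : a * (b * (b * a - 1) * a) * b = (a * b) * (b * a - 1) * (a * b) := by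
      simp only [mul_assoc]
    rw [e, hab, one_mul, mul_one] at h2
    exact sub_eq_zero.1 h2
  intro x y
  have h3 := h x y
  rw [hba, mul_one] at h3
  have h4 : y * x = x * y := by
    calc y * x = (b * a) * (y * x) * (b * a) := by rw [hba, one_mul, mul_one]
      _ = b * (a * (y * x) * b) * a := by simp only [mul_assoc]
      _ = b * (a * (x * y) * b) * a := by rw [h3]
      _ = (b * a) * (x * y) * (b * a) := by simp only [mul_assoc]
      _ = x * y := by rw [hba, one_mul, mul_one]
  exact h4.symm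

section

variable {H : Type*} [NormedAddCommGroup H] [InnerProductSpace ℂ H] [CompleteSpace H]

lemma li_compact {T K : H →L[ℂ] H} (hT : LI T) (hK : IsCompactOperator K) : LI (T + K) := by
  obtain ⟨S, hS⟩ := hT
  have hSK : IsCompactOperator (S * T - 1 + S * K : H →L[ℂ] H) :=
    (FR.compact hS).add (hK.clm_comp S)
  obtain ⟨⟨S', hS'⟩, -⟩ := compact_fredholm hSK
  refine ⟨S' * S, ?_⟩
  have e : S' * S * (T + K) - 1 = S' * (1 + (S * T - 1 + S * K)) - 1 := by noncomm_ring
  rw [e]
  exact hS'

lemma ri_compact {T K : H →L[ℂ] H} (hT : RI T) (hK : IsCompactOperator K) : RI (T + K) := by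
  obtain ⟨S, hS⟩ := hT
  have hSK : IsCompactOperator (T * S - 1 + K * S : H →L[ℂ] H) :=
    (FR.compact hS).add (hK.comp_clm S)
  obtain ⟨-, ⟨S', hS'⟩⟩ := compact_fredholm hSK
  refine ⟨S * S', ?_⟩
  have e : (T + K) * (S * S') - 1 = (1 + (T * S - 1 + K * S)) * S' - 1 := by noncomm_ring
  rw [e]
  exact hS'

lemma qh_nontrivial (hinf : ¬ FiniteDimensional ℂ H) : (1 : QH H) ≠ 0 := by
  intro h
  have h1 : FR (1 : H →L[ℂ] H) := by
    rw [← qm_eq_zero, map_one]; exact h
  apply hinf
  have h2 : IsCompactOperator (id : H → H) := h1.compact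
  exact (isCompactOperator_id_iff_finiteDimensional (𝕜 := ℂ) (E := H)).1 h2

variable [TopologicalSpace.SeparableSpace H]

/-- The Calkin algebra is not commutative. -/
lemma calk_not_comm (hinf : ¬ FiniteDimensional ℂ H) : ¬ ∀ x y : Calk H, x * y = y * x := by
  intro h
  have := calk_nontrivial hinf
  obtain ⟨v, v', hv, hv1⟩ := leavitt (H := H) hinf
  have h00 : cmkA (v' 0) * cmkA (v 0) = (1 : Calk H) := by
    rw [← map_mul, hv 0 0, if_pos rfl, map_one]
  have h11 : cmkA (v' 1) * cmkA (v 1) = (1 : Calk H) := by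
    rw [← map_mul, hv 1 1, if_pos rfl, map_one]
  have h01 : cmkA (v' 0) * cmkA (v 1) = (0 : Calk H) := by
    rw [← map_mul, hv 0 1, if_neg (by decide), map_zero]
  have h2 : (cmkA (v 1) : Calk H) = 0 := by
    calc (cmkA (v 1) : Calk H) = cmkA (v 1) * (cmkA (v' 0) * cmkA (v 0)) := by rw [h00, mul_one]
      _ = (cmkA (v 1) * cmkA (v' 0)) * cmkA (v 0) := by rw [mul_assoc]
      _ = 0 := by rw [h (cmkA (v 1)), h01, zero_mul]
  rw [h2, mul_zero] at h11
  exact zero_ne_one h11

/-- the functional and the compact operator -/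
structure Data (f : (H →L[ℂ] H) →ₗ[ℂ] ℂ) (K : H →L[ℂ] H) : Prop where
  cpt : ∀ T : H →L[ℂ] H, IsCompactOperator T → f T = 0
  one : f 1 ≠ 0
  K_cpt : IsCompactOperator K
  K_fr : ¬ FR K

lemma exists_data (hinf : ¬ FiniteDimensional ℂ H) :
    ∃ (f : (H →L[ℂ] H) →ₗ[ℂ] ℂ) (K : H →L[ℂ] H), Data f K := by
  have := calk_nontrivial hinf
  have h1 : ∃ g : Module.Dual ℂ (Calk H), g 1 ≠ 0 := by
    by_contra hcon
    push Not at hcon
    exact one_ne_zero ((Module.forall_dual_apply_eq_zero_iff ℂ (1 : Calk H)).1 hcon)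
  obtain ⟨g, hg⟩ := h1
  obtain ⟨R, Rn, hR, hRn, hlim⟩ := exists_compact_not_fr (H := H) hinf
  have hRc : IsCompactOperator R :=
    isCompactOperator_of_tendsto hlim (Filter.Eventually.of_forall fun n => (hRn n).compact)
  refine ⟨g ∘ₗ (cmkA (H := H)).toLinearMap, R, ?_, ?_, hRc, hR⟩
  · intro T hT
    have : (cmkA T : Calk H) = 0 := (cmk_eq_zero T).2 hT
    change g (cmkA T) = 0
    rw [this, map_zero]
  · change g (cmkA 1) ≠ 0
    rw [map_one]
    exact hg

/-- the map `T ↦ T + f T • K` -/
noncomputable def pert (f : (H →L[ℂ] H) →ₗ[ℂ] ℂ) (K : H →L[ℂ] H) :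
    (H →L[ℂ] H) →ₗ[ℂ] (H →L[ℂ] H) := LinearMap.id + f.smulRight K

lemma pert_apply (f : (H →L[ℂ] H) →ₗ[ℂ] ℂ) (K T : H →L[ℂ] H) : pert f K T = T + f T • K := rfl

variable {f : (H →L[ℂ] H) →ₗ[ℂ] ℂ} {K : H →L[ℂ] H}

lemma Data.neg (h : Data f K) : Data f (-K) :=
  ⟨h.cpt, h.one, h.K_cpt.neg, fun hc => h.K_fr (by simpa using hc.neg)⟩

lemma Data.pert_neg (h : Data f K) (T : H →L[ℂ] H) : pert f (-K) (pert f K T) = T := by
  rw [pert_apply, pert_apply, map_add, map_smul, h.cpt K h.K_cpt, smul_zero, add_zero, smul_neg]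
  abel

lemma Data.bij (h : Data f K) : Function.Bijective (pert f K) := by
  refine Function.bijective_iff_has_inverse.2 ⟨pert f (-K), h.pert_neg, fun T => ?_⟩
  have := h.neg.pert_neg T
  rwa [neg_neg] at this

lemma Data.iff_of {P : (H →L[ℂ] H) → Prop} (h : Data f K)
    (hP : ∀ (f : (H →L[ℂ] H) →ₗ[ℂ] ℂ) (K : H →L[ℂ] H), Data f K → ∀ T, P T → P (pert f K T))
    (T : H →L[ℂ] H) : P T ↔ P (pert f K T) := by
  refine ⟨hP f K h T, fun hT => ?_⟩
  have := hP f (-K) h.neg _ hT
  rwa [h.pert_neg] at this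

lemma Data.li (h : Data f K) (T : H →L[ℂ] H) : LI T ↔ LI (pert f K T) :=
  h.iff_of (fun _ _ h T hT => li_compact hT (h.K_cpt.smul _)) T

lemma Data.ri (h : Data f K) (T : H →L[ℂ] H) : RI T ↔ RI (pert f K T) :=
  h.iff_of (fun _ _ h T hT => ri_compact hT (h.K_cpt.smul _)) T

lemma Data.fr (h : Data f K) (T : H →L[ℂ] H) : FR T ↔ FR (pert f K T) :=
  h.iff_of (fun _ _ h T hT => by
    rw [pert_apply, h.cpt T hT.compact, zero_smul, add_zero]; exact hT) T

/-- no multiplicative form -/
lemma Data.not_hom (h : Data f K) (hinf : ¬ FiniteDimensional ℂ H) (A B : H →L[ℂ] H) :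
    ¬ ∀ T, FR (pert f K T - A * T * B) := by
  intro hT
  set a := qm H A with ha
  set b := qm H B with hb
  set k := qm H K with hk
  have hk0 : k ≠ 0 := fun h0 => h.K_fr (qm_eq_zero.1 h0)
  have key : ∀ T, qm H T + f T • k = a * qm H T * b := by
    intro T
    have := qm_eq.2 (hT T)
    rw [pert_apply, map_add, map_smul, map_mul, map_mul] at this
    exact this
  have keyc : ∀ T : H →L[ℂ] H, IsCompactOperator T → qm H T = a * qm H T * b := by
    intro T hc
    have := key T
    rwa [h.cpt T hc, zero_smul, add_zero] at this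
  have h1 : 1 + f 1 • k = a * b := by
    have := key 1
    rwa [map_one, mul_one] at this
  have hb0 : b ≠ 0 := by
    intro hb0
    have h2 : IsCompactOperator (f 1 • K : H →L[ℂ] H) := h.K_cpt.smul _
    obtain ⟨⟨S, hS⟩, -⟩ := compact_fredholm h2
    have h3 := qm_eq.2 hS
    rw [map_mul, map_add, map_smul, map_one, ← hk, h1, hb0, mul_zero, mul_zero] at h3
    exact qh_nontrivial hinf h3.symm
  have hcomm : ∀ x : QH H, a * x = x * a := by
    intro x
    obtain ⟨X, rfl⟩ := qm_surjective H x
    have h2 : ∀ s s' : QH H, (a * qm H X - qm H X * a) * s * (k * s' * b) = 0 := by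
      intro s s'
      obtain ⟨S, rfl⟩ := qm_surjective H s
      obtain ⟨S', rfl⟩ := qm_surjective H s'
      have hc : IsCompactOperator (S * (K * S') : H →L[ℂ] H) := (h.K_cpt.comp_clm S').clm_comp S
      have hc' : IsCompactOperator (X * (S * (K * S')) : H →L[ℂ] H) := hc.clm_comp X
      have e1 := keyc _ hc
      have e2 := keyc _ hc'
      simp only [map_mul, ← hk] at e1 e2
      have e3 : qm H X * (qm H S * (k * qm H S')) =
          qm H X * (a * (qm H S * (k * qm H S')) * b) := by rw [← e1]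
      have e4 : a * (qm H X * (qm H S * (k * qm H S'))) * b =
          qm H X * (a * (qm H S * (k * qm H S')) * b) := by rw [← e2]; exact e3
      have e5 : (a * qm H X - qm H X * a) * qm H S * (k * qm H S' * b) =
          a * (qm H X * (qm H S * (k * qm H S'))) * b -
            qm H X * (a * (qm H S * (k * qm H S')) * b) := by noncomm_ring
      rw [e5, e4, sub_self]
    by_contra hne
    have hne' : a * qm H X - qm H X * a ≠ 0 := fun h0 => hne (sub_eq_zero.1 h0)
    have h3 : ∀ s' : QH H, k * s' * b = 0 := by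
      intro s'
      rcases qh_prime _ _ (fun s => h2 s s') with h4 | h4
      · exact absurd h4 hne'
      · exact h4
    rcases qh_prime _ _ h3 with h4 | h4
    · exact hk0 h4
    · exact hb0 h4
  have h5 : ∀ s : QH H, k * s * k = 0 := by
    intro s
    obtain ⟨S, rfl⟩ := qm_surjective H s
    have hc : IsCompactOperator (K * S : H →L[ℂ] H) := h.K_cpt.comp_clm S
    have e1 := keyc _ hc
    rw [map_mul, hcomm, mul_assoc, mul_assoc, ← h1, ← hk] at e1
    have e2 : k * (qm H S * (1 + f 1 • k)) = k * qm H S + f 1 • (k * qm H S * k) := by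
      rw [mul_add, mul_one, mul_add, mul_smul_comm, mul_smul_comm, mul_assoc]
    rw [e2] at e1
    have e3 : f 1 • (k * qm H S * k) = 0 := by
      have e4 := sub_eq_zero.2 e1.symm
      rwa [add_sub_cancel_left] at e4
    exact (smul_eq_zero.1 e3).resolve_left h.one
  rcases qh_prime _ _ h5 with h6 | h6 <;> exact hk0 h6

/-- no anti-multiplicative form -/
lemma Data.not_anti (h : Data f K) (hinf : ¬ FiniteDimensional ℂ H) (A B : H →L[ℂ] H)
    (tr : (H →L[ℂ] H) → (H →L[ℂ] H)) (hm : ∀ S T, tr (S * T) = tr T * tr S)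
    (hi : ∀ T, tr (tr T) = T) (h1 : tr 1 = 1) :
    ¬ ∀ T, FR (pert f K T - A * tr T * B) := by
  intro hT
  apply calk_not_comm hinf
  have key : ∀ T, (cmkA T : Calk H) = cmkA A * cmkA (tr T) * cmkA B := by
    intro T
    have h2 : IsCompactOperator (T - A * tr T * B : H →L[ℂ] H) := by
      have e : T - A * tr T * B = (pert f K T - A * tr T * B) - f T • K := by
        rw [pert_apply]; abel
      rw [e]
      exact (hT T).compact.sub (h.K_cpt.smul _)
    have h3 : (cmkA (T - A * tr T * B) : Calk H) = 0 := (cmk_eq_zero _).2 h2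
    rwa [map_sub, map_mul, map_mul, sub_eq_zero] at h3
  refine comm_of_anti (cmkA A) (cmkA B) ?_ ?_
  · have := key 1
    rw [h1, map_one, mul_one] at this
    exact this.symm
  · intro x y
    obtain ⟨X, rfl⟩ := cmk_surjective x
    obtain ⟨Y, rfl⟩ := cmk_surjective y
    have e1 := key (tr X * tr Y)
    rw [hm, hi, hi, map_mul, map_mul, key (tr X), key (tr Y), hi, hi] at e1
    change cmkA A * (cmkA Y * cmkA X) * cmkA B =
      cmkA A * (cmkA X * (cmkA B * cmkA A) * cmkA Y) * cmkA B
    rw [← e1]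
    simp only [mul_assoc]

end

end H38.GP
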